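import Mathlib

set_option autoImplicit false

open MeasureTheory

namespace Pool.Agent.TH330.Rogers

/-- the `k`-th base four digit (starting with index zero after the point) -/
noncomputable def dig (v : ℝ) (k : ℕ) : ℤ := ⌊(4:ℝ) ^ (k+1) * v⌋ - 4 * ⌊(4:ℝ) ^ k * v⌋

theorem dig_nonneg (v : ℝ) (k : ℕ) : 0 ≤ dig v k := by
  unfold dig
  have h1 : (4:ℤ) * ⌊(4:ℝ) ^ k * v⌋ ≤ ⌊(4:ℝ) ^ (k+1) * v⌋ := by
    apply Int.le_floor.2
    push_cast
    have := Int.floor_le ((4:ℝ) ^ k * v)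
    rw [pow_succ]
    linarith
  linarith

theorem dig_le (v : ℝ) (k : ℕ) : dig v k ≤ 3 := by
  unfold dig
  have h1 : ⌊(4:ℝ) ^ (k+1) * v⌋ < 4 * ⌊(4:ℝ) ^ k * v⌋ + 4 := by
    apply Int.floor_lt.2
    push_cast
    have := Int.lt_floor_add_one ((4:ℝ) ^ k * v)
    rw [pow_succ]
    linarith
  linarith

/-- base four digits read in base eight -/
noncomputable def g (v : ℝ) : ℝ := ∑' k : ℕ, (dig v k : ℝ) * (1 / 8 : ℝ) ^ (k + 1)

theorem summ (v : ℝ) : Summable (fun k : ℕ => (dig v k : ℝ) * (1 / 8 : ℝ) ^ (k + 1)) := by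
  have h : Summable (fun k : ℕ => 3 * ((1 / 8 : ℝ) ^ k)) :=
    (summable_geometric_of_lt_one (by norm_num) (by norm_num)).mul_left 3
  refine Summable.of_nonneg_of_le (fun k => ?_) (fun k => ?_) h
  · have := dig_nonneg v k
    positivity
  · have h1 : (dig v k : ℝ) ≤ 3 := by exact_mod_cast dig_le v k
    have h0 : (0:ℝ) ≤ (dig v k : ℝ) := by exact_mod_cast dig_nonneg v k
    have h2 : (1 / 8 : ℝ) ^ (k + 1) ≤ (1/8)^k := by
      rw [pow_succ]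
      have : (0:ℝ) < (1/8)^k := by positivity
      linarith
    exact mul_le_mul h1 h2 (by positivity) (by norm_num)

/-- the partial sums -/
noncomputable def gn (v : ℝ) (n : ℕ) : ℝ :=
  ∑ k ∈ Finset.range n, (dig v k : ℝ) * (1 / 8 : ℝ) ^ (k + 1)

theorem tail_tsum (n : ℕ) : ∑' k : ℕ, (3 : ℝ) * (1 / 8 : ℝ) ^ (k + n + 1) = 3 / 7 * (1 / 8) ^ n := by
  have h1 : ∀ k : ℕ, (3 : ℝ) * (1 / 8 : ℝ) ^ (k + n + 1) = (3 / 8 * (1/8)^n) * (1 / 8 : ℝ) ^ k := by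
    intro k; rw [pow_succ, pow_add]; ring
  simp_rw [h1]
  rw [tsum_mul_left, tsum_geometric_of_lt_one (by norm_num) (by norm_num)]
  ring

theorem tail_summ (n : ℕ) : Summable (fun k : ℕ => (3 : ℝ) * (1 / 8 : ℝ) ^ (k + n + 1)) := by
  have h1 : ∀ k : ℕ, (3 : ℝ) * (1 / 8 : ℝ) ^ (k + n + 1) = (3 / 8 * (1/8)^n) * (1 / 8 : ℝ) ^ k := by
    intro k; rw [pow_succ, pow_add]; ring
  simp_rw [h1]
  exact (summable_geometric_of_lt_one (by norm_num) (by norm_num)).mul_left _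

theorem g_split (v : ℝ) (n : ℕ) :
    g v = gn v n + ∑' k : ℕ, (dig v (k + n) : ℝ) * (1 / 8 : ℝ) ^ (k + n + 1) := by
  unfold g gn
  rw [← (summ v).sum_add_tsum_nat_add n]

theorem tail_nonneg (v : ℝ) (n : ℕ) :
    0 ≤ ∑' k : ℕ, (dig v (k + n) : ℝ) * (1 / 8 : ℝ) ^ (k + n + 1) := by
  apply tsum_nonneg
  intro k
  have := dig_nonneg v (k + n)
  positivity

theorem tail_le (v : ℝ) (n : ℕ) :
    ∑' k : ℕ, (dig v (k + n) : ℝ) * (1 / 8 : ℝ) ^ (k + n + 1) ≤ 3 / 7 * (1 / 8) ^ n := by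
  rw [← tail_tsum n]
  apply Summable.tsum_le_tsum _ ((summable_nat_add_iff n).2 (summ v)) (tail_summ n)
  intro k
  have h1 : (dig v (k + n) : ℝ) ≤ 3 := by exact_mod_cast dig_le v _
  exact mul_le_mul_of_nonneg_right h1 (by positivity)

theorem g_ge (v : ℝ) (n : ℕ) : gn v n ≤ g v := by
  rw [g_split v n]; linarith [tail_nonneg v n]

theorem g_le (v : ℝ) (n : ℕ) : g v ≤ gn v n + 3 / 7 * (1 / 8) ^ n := by
  rw [g_split v n]; linarith [tail_le v n]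

theorem g_nonneg (v : ℝ) : 0 ≤ g v := by
  have := g_ge v 0
  simpa [gn] using this

theorem g_le_one (v : ℝ) : g v ≤ 1 := by
  have := g_le v 0
  simp [gn] at this
  linarith

/-- equal floors give equal partial sums -/
theorem gn_eq {u v : ℝ} (hu0 : 0 ≤ u) (huv : u ≤ v) (n : ℕ)
    (h : ⌊(4:ℝ) ^ n * u⌋ = ⌊(4:ℝ) ^ n * v⌋) : 
    ∀ k ≤ n, ⌊(4:ℝ) ^ k * u⌋ = ⌊(4:ℝ) ^ k * v⌋ := by
  intro k hk
  apply le_antisymm
  · apply Int.floor_le_floor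
    have : (0:ℝ) < 4 ^ k := by positivity
    nlinarith
  · apply Int.le_floor.2
    obtain ⟨m, rfl⟩ := Nat.exists_eq_add_of_le hk
    have h1 := Int.floor_le ((4:ℝ) ^ k * v)
    -- 4^m * floor(4^k v) ≤ floor(4^(k+m) v) = floor (4^(k+m) u) ≤ 4^(k+m) u
    have h2 : (4:ℤ)^m * ⌊(4:ℝ) ^ k * v⌋ ≤ ⌊(4:ℝ) ^ (k+m) * v⌋ := by
      apply Int.le_floor.2
      push_cast
      rw [pow_add]
      have : (0:ℝ) < 4 ^ m := by positivity
      nlinarith
    rw [← h] at h2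
    have h3 := Int.floor_le ((4:ℝ) ^ (k+m) * u)
    have h4 : ((4:ℝ)^m * (⌊(4:ℝ) ^ k * v⌋ : ℝ)) ≤ (⌊(4:ℝ) ^ (k+m) * u⌋ : ℝ) := by exact_mod_cast h2
    have h5 : ((4:ℝ)^m * (⌊(4:ℝ) ^ k * v⌋ : ℝ)) ≤ 4^m * (4^k * u) := by
      calc _ ≤ _ := h4
        _ ≤ _ := h3
        _ = _ := by rw [pow_add]; ring
    exact le_of_mul_le_mul_left h5 (by positivity)

theorem g_gap {u v : ℝ} (hu0 : 0 ≤ u) (huv : u < v) (hv1 : v < 1) :
    ∃ n : ℕ, v - u ≤ 4 * (1 / 4) ^ n ∧ 4 / 7 * (1 / 8) ^ n ≤ g v - g u := by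
  have hex : ∃ n : ℕ, ⌊(4:ℝ) ^ n * u⌋ ≠ ⌊(4:ℝ) ^ n * v⌋ := by
    obtain ⟨n, hn⟩ := pow_unbounded_of_one_lt (1 / (v - u)) (by norm_num : (1:ℝ) < 4)
    refine ⟨n, fun h => ?_⟩
    have hpos : 0 < v - u := by linarith
    rw [div_lt_iff₀ hpos] at hn
    have h1 := Int.floor_le ((4:ℝ) ^ n * u)
    have h2 := Int.lt_floor_add_one ((4:ℝ) ^ n * v)
    rw [h] at h1
    nlinarith
  classical
  set n := Nat.find hex with hn
  have hn1 : ⌊(4:ℝ) ^ n * u⌋ ≠ ⌊(4:ℝ) ^ n * v⌋ := Nat.find_spec hex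
  have hn0 : n ≠ 0 := by
    intro h0
    apply hn1
    rw [h0]
    simp only [pow_zero, one_mul]
    rw [Int.floor_eq_zero_iff.2 ⟨hu0, by linarith⟩, Int.floor_eq_zero_iff.2 ⟨by linarith, hv1⟩]
  obtain ⟨m, hm⟩ := Nat.exists_eq_succ_of_ne_zero hn0
  have hmlt : m < n := by omega
  have hmeq : ⌊(4:ℝ) ^ m * u⌋ = ⌊(4:ℝ) ^ m * v⌋ := by
    by_contra hne
    exact Nat.find_min hex hmlt hne
  have hall := gn_eq hu0 huv.le m hmeq
  refine ⟨n, ?_, ?_⟩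
  · have h1 := Int.floor_le ((4:ℝ) ^ m * u)
    have h2 := Int.lt_floor_add_one ((4:ℝ) ^ m * v)
    rw [hmeq] at h1
    have h3 : (4:ℝ)^m * (v - u) ≤ 1 := by nlinarith
    rw [hm, pow_succ]
    have h4 : (4:ℝ)^m * (1/4)^m = 1 := by
      rw [← mul_pow]; norm_num
    have h5 : (0:ℝ) < (1/4)^m := by positivity
    calc v - u = (1/4)^m * ((4:ℝ)^m * (v - u)) := by
          rw [← mul_assoc, mul_comm ((1/4:ℝ)^m), h4, one_mul]
      _ ≤ (1/4)^m * 1 := by gcongr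
      _ = 4 * ((1/4)^m * (1/4)) := by ring
  · have hA := g_le u n
    have hB := g_ge v n
    have hgn : gn v n - gn u n ≥ (1/8)^n := by
      unfold gn
      rw [hm, Finset.sum_range_succ, Finset.sum_range_succ]
      have heq : ∑ k ∈ Finset.range m, (dig v k : ℝ) * (1 / 8 : ℝ) ^ (k + 1) =
          ∑ k ∈ Finset.range m, (dig u k : ℝ) * (1 / 8 : ℝ) ^ (k + 1) := by
        apply Finset.sum_congr rfl
        intro k hk
        rw [Finset.mem_range] at hk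
        unfold dig
        rw [hall k (by omega), hall (k+1) (by omega)]
      rw [heq]
      have hd : dig u m + 1 ≤ dig v m := by
        unfold dig
        rw [hmeq]
        have hle : ⌊(4:ℝ) ^ (m+1) * u⌋ ≤ ⌊(4:ℝ) ^ (m+1) * v⌋ := by
          apply Int.floor_le_floor
          have : (0:ℝ) < 4 ^ (m+1) := by positivity
          nlinarith
        have hne : ⌊(4:ℝ) ^ (m+1) * u⌋ ≠ ⌊(4:ℝ) ^ (m+1) * v⌋ := by
          rw [hm] at hn1; exact hn1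
        have := lt_of_le_of_ne hle hne
        linarith
      have hd' : (dig u m : ℝ) + 1 ≤ (dig v m : ℝ) := by exact_mod_cast hd
      have : (0:ℝ) < (1/8)^(m+1) := by positivity
      rw [Nat.succ_eq_add_one]
      nlinarith
    linarith

theorem g_mono : MonotoneOn g (Set.Ico 0 1) := by
  intro u hu v hv huv
  rcases eq_or_lt_of_le huv with h | h
  · rw [h]
  · obtain ⟨n, -, hn⟩ := g_gap hu.1 h hv.2
    have : (0:ℝ) < (1/8)^n := by positivity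
    linarith

/-- inverse Hoelder bound, written without real exponents -/
theorem g_holder {u v : ℝ} (hu0 : 0 ≤ u) (huv : u < v) (hv1 : v < 1) :
    (v - u) ^ 3 ≤ (14 * (g v - g u)) ^ 2 := by
  obtain ⟨n, h1, h2⟩ := g_gap hu0 huv hv1
  have h3 : 0 ≤ v - u := by linarith
  have h4 : (v - u)^3 ≤ (4 * (1/4)^n)^3 := pow_le_pow_left₀ h3 h1 3
  have h5 : (8 * (1/8:ℝ)^n) ≤ 14 * (g v - g u) := by linarith
  have h6 : (8 * (1/8:ℝ)^n)^2 ≤ (14 * (g v - g u))^2 := pow_le_pow_left₀ (by positivity) h5 2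
  have h7 : (4 * (1/4:ℝ)^n)^3 = (8 * (1/8:ℝ)^n)^2 := by
    rw [mul_pow, mul_pow, ← pow_mul, ← pow_mul, mul_comm n 3, mul_comm n 2, pow_mul, pow_mul]
    norm_num
  linarith

end Pool.Agent.TH330.Rogers
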