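import Mathlib
import Pool.Agent.TH330.RogersA

set_option autoImplicit false

open MeasureTheory Set

namespace Pool.Agent.TH330.Rogers

/-- a point near which `g` is close to `c` -/
theorem exists_center (c : ℝ) : ∃ v0 : ℝ, 0 ≤ v0 ∧ v0 ≤ 1 ∧
    ∀ v : ℝ, 0 ≤ v → v < 1 → |v - v0| ^ 3 ≤ 1568 * (c - g v) ^ 2 := by
  classical
  set A : Set ℝ := {v | 0 ≤ v ∧ v < 1 ∧ g v ≤ c} with hA
  have hbdd : BddAbove A := ⟨1, fun v hv => hv.2.1.le⟩
  rcases A.eq_empty_or_nonempty with hE | hne
  · refine ⟨0, le_refl _, zero_le_one, fun v hv0 hv1 => ?_⟩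
    have hnot : ∀ u, 0 ≤ u → u < 1 → c < g u := by
      intro u hu0 hu1
      by_contra h
      have : u ∈ A := ⟨hu0, hu1, not_lt.1 h⟩
      rw [hE] at this
      exact this
    rw [sub_zero, abs_of_nonneg hv0]
    rcases eq_or_lt_of_le hv0 with h | h
    · rw [← h]; norm_num; positivity
    · have h1 := g_holder (le_refl 0) h hv1
      rw [sub_zero] at h1
      have h2 := hnot 0 (le_refl 0) one_pos
      have h3 : g 0 ≤ g v := g_mono ⟨le_refl 0, one_pos⟩ ⟨hv0, hv1⟩ hv0
      nlinarith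
  · set v0 := sSup A with hv0
    have h00 : 0 ≤ v0 := by
      obtain ⟨a, ha⟩ := hne
      exact ha.1.trans (le_csSup hbdd ha)
    have h01 : v0 ≤ 1 := csSup_le hne fun a ha => ha.2.1.le
    refine ⟨v0, h00, h01, fun v hv0' hv1 => ?_⟩
    rcases lt_trichotomy v v0 with h | h | h
    · obtain ⟨a, ha, hla⟩ := exists_lt_of_lt_csSup hne (show (v + v0) / 2 < v0 by linarith)
      have h1 := g_holder hv0' (show v < a by linarith) ha.2.1
      have h2 : g v ≤ g a := g_mono ⟨hv0', hv1⟩ ⟨ha.1, ha.2.1⟩ (by linarith)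
      have h3 : g a ≤ c := ha.2.2
      have h4 : (14 * (g a - g v)) ^ 2 ≤ (14 * (c - g v)) ^ 2 :=
        pow_le_pow_left₀ (by linarith) (by linarith) 2
      have h5 : ((v0 - v)/2) ^ 3 ≤ (a - v) ^ 3 := pow_le_pow_left₀ (by linarith) (by linarith) 3
      rw [abs_of_neg (by linarith)]
      nlinarith
    · rw [h, sub_self]; norm_num; positivity
    · set a := (v + v0) / 2 with ha
      have ha0 : 0 ≤ a := by rw [ha]; linarith
      have ha1 : a < 1 := by rw [ha]; linarith
      have h1 := g_holder ha0 (show a < v by rw [ha]; linarith) hv1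
      have h2 : g a ≤ g v := g_mono ⟨ha0, ha1⟩ ⟨hv0', hv1⟩ (by rw [ha]; linarith)
      have h3 : c < g a := by
        by_contra hc
        have : a ∈ A := ⟨ha0, ha1, not_lt.1 hc⟩
        have := le_csSup hbdd this
        rw [← hv0] at this
        linarith
      have h4 : (14 * (g v - g a)) ^ 2 ≤ (14 * (g v - c)) ^ 2 :=
        pow_le_pow_left₀ (by linarith) (by linarith) 2
      have h5 : (v - a) = (v - v0)/2 := by rw [ha]; ring
      rw [h5] at h1
      rw [abs_of_pos (by linarith)]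
      nlinarith

/-- measure of one slice -/
theorem slice_vol (z w t0 : ℝ) (hz : z ≠ 0) (hw : 0 < w) :
    volume {t : ℝ | z ≤ (t - t0) ^ 2 ∧ (t - t0) ^ 2 ≤ z + w} ≤
      ENNReal.ofReal (2 * (w / Real.sqrt |z|)) := by
  set D := w / Real.sqrt |z| with hD
  have hzpos : 0 < |z| := abs_pos.2 hz
  have hs : 0 < Real.sqrt |z| := Real.sqrt_pos.2 hzpos
  have hD0 : 0 < D := by positivity
  -- the key estimate
  have key : ∀ s t : ℝ, 0 ≤ s → s ≤ t → z ≤ s ^ 2 → t ^ 2 ≤ z + w → t - s ≤ D := by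
    intro s t hs0 hst h1 h2
    rw [hD, le_div_iff₀ hs]
    rcases lt_or_gt_of_ne hz with h | h
    · -- z < 0
      rw [abs_of_neg h] at hs ⊢
      have h3 : t ^ 2 ≤ w := by linarith
      have h4 : -z ≤ w := by nlinarith [sq_nonneg t]
      have h5 : Real.sqrt (-z) ≤ Real.sqrt w := Real.sqrt_le_sqrt h4
      have h6 : t ≤ Real.sqrt w := Real.le_sqrt_of_sq_le h3
      have h7 : Real.sqrt w * Real.sqrt w = w := Real.mul_self_sqrt hw.le
      have h8 : 0 ≤ t := by linarith
      calc (t - s) * Real.sqrt (-z) ≤ Real.sqrt w * Real.sqrt w := by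
            apply mul_le_mul _ h5 hs.le (Real.sqrt_nonneg _)
            linarith
        _ = w := h7
    · rw [abs_of_pos h] at hs ⊢
      have h3 : Real.sqrt z ≤ s := by
        rw [← Real.sqrt_sq hs0]
        exact Real.sqrt_le_sqrt h1
      have h4 : (t - s) * (t + s) ≤ w := by nlinarith
      have h5 : (t - s) * Real.sqrt z ≤ (t - s) * (t + s) := by
        apply mul_le_mul_of_nonneg_left _ (by linarith)
        linarith
      linarith
  set S := {t : ℝ | z ≤ (t - t0) ^ 2 ∧ (t - t0) ^ 2 ≤ z + w} with hS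
  have hsub : S ⊆ (S ∩ Ici t0) ∪ (S ∩ Iic t0) := by
    intro t ht
    rcases le_total t0 t with h | h
    · exact Or.inl ⟨ht, h⟩
    · exact Or.inr ⟨ht, h⟩
  have hdiam : ∀ T : Set ℝ, (∀ s ∈ T, ∀ t ∈ T, s ≤ t → t - s ≤ D) → volume T ≤ ENNReal.ofReal D := by
    intro T hT
    refine (Real.volume_le_diam T).trans ?_
    apply Metric.ediam_le
    intro x hx y hy
    rw [edist_dist]
    apply ENNReal.ofReal_le_ofReal
    rw [Real.dist_eq]
    rcases le_total x y with h | h
    · rw [abs_sub_comm, abs_of_nonneg (by linarith)]; exact hT x hx y hy h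
    · rw [abs_of_nonneg (by linarith)]; exact hT y hy x hx h
  calc volume S ≤ volume ((S ∩ Ici t0) ∪ (S ∩ Iic t0)) := measure_mono hsub
    _ ≤ volume (S ∩ Ici t0) + volume (S ∩ Iic t0) := measure_union_le _ _
    _ ≤ ENNReal.ofReal D + ENNReal.ofReal D := by
        apply add_le_add
        · apply hdiam
          rintro s ⟨hs1, hs2⟩ t ⟨ht1, ht2⟩ hst
          have := key (s - t0) (t - t0) (by have := mem_Ici.1 hs2; linarith) (by linarith) hs1.1 ht1.2
          linarith
        · apply hdiam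
          rintro s ⟨hs1, hs2⟩ t ⟨ht1, ht2⟩ hst
          have h1 : (t0 - t) ^ 2 = (t - t0)^2 := by ring
          have h2 : (t0 - s) ^ 2 = (s - t0)^2 := by ring
          have := key (t0 - t) (t0 - s) (by have := mem_Iic.1 ht2; linarith) (by linarith)
            (by rw [h1]; exact ht1.1) (by rw [h2]; exact hs1.2)
          linarith
    _ = ENNReal.ofReal (2 * D) := by
        rw [← ENNReal.ofReal_add hD0.le hD0.le]; congr 1; ring

end Pool.Agent.TH330.Rogers
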