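import Mathlib
import Pool.Agent.TH330.RogersB

set_option autoImplicit false

open MeasureTheory Set

namespace Pool.Agent.TH330.Rogers

theorem lint01 : ∫⁻ x in Ioc (0:ℝ) 1, ENNReal.ofReal (x ^ (-(3/4) : ℝ)) = ENNReal.ofReal 4 := by
  rw [← ofReal_integral_eq_lintegral_ofReal]
  · congr 1
    rw [← intervalIntegral.integral_of_le zero_le_one, integral_rpow (Or.inl (by norm_num))]
    norm_num
  · have := (intervalIntegral.intervalIntegrable_rpow' (a := 0) (b := 1)
      (show (-1:ℝ) < -(3/4) by norm_num))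
    rwa [intervalIntegrable_iff_integrableOn_Ioc_of_le zero_le_one] at this
  · filter_upwards [ae_restrict_mem measurableSet_Ioc] with x hx
    exact Real.rpow_nonneg hx.1.le _

theorem lint_right (v0 : ℝ) (h0 : 0 ≤ v0) :
    ∫⁻ v in Ioc v0 1, ENNReal.ofReal (|v - v0| ^ (-(3/4) : ℝ)) ≤ ENNReal.ofReal 4 := by
  have h1 : ∫⁻ v in Ioc v0 1, ENNReal.ofReal (|v - v0| ^ (-(3/4) : ℝ)) ≤
      ∫⁻ v in Ioc v0 (1 + v0), ENNReal.ofReal (|v - v0| ^ (-(3/4) : ℝ)) :=
    lintegral_mono_set (Ioc_subset_Ioc_right (by linarith))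
  refine h1.trans ?_
  rw [← lint01]
  have hmp : MeasurePreserving (fun v : ℝ => v - v0) volume volume :=
    measurePreserving_sub_right volume v0
  have h2 := hmp.setLIntegral_comp_preimage_emb (Homeomorph.subRight v0).measurableEmbedding
    (fun x => ENNReal.ofReal (|x| ^ (-(3/4) : ℝ))) (Ioc 0 1)
  have h3 : (fun v : ℝ => v - v0) ⁻¹' (Ioc 0 1) = Ioc v0 (1 + v0) := by
    ext v
    simp only [mem_preimage, mem_Ioc]
    constructor <;> rintro ⟨a, b⟩ <;> constructor <;> linarith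
  rw [h3] at h2
  rw [h2]
  apply le_of_eq
  apply setLIntegral_congr_fun measurableSet_Ioc
  intro x hx
  simp only
  rw [abs_of_pos hx.1]

theorem lint_left (v0 : ℝ) (h1 : v0 ≤ 1) :
    ∫⁻ v in Ico 0 v0, ENNReal.ofReal (|v - v0| ^ (-(3/4) : ℝ)) ≤ ENNReal.ofReal 4 := by
  have h1' : ∫⁻ v in Ico 0 v0, ENNReal.ofReal (|v - v0| ^ (-(3/4) : ℝ)) ≤
      ∫⁻ v in Ico (v0 - 1) v0, ENNReal.ofReal (|v - v0| ^ (-(3/4) : ℝ)) :=
    lintegral_mono_set (Ico_subset_Ico_left (by linarith))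
  refine h1'.trans ?_
  rw [← lint01]
  have hmp : MeasurePreserving (fun v : ℝ => v0 - v) volume volume :=
    Measure.measurePreserving_sub_left volume v0
  have h2 := hmp.setLIntegral_comp_preimage_emb (Homeomorph.subLeft v0).measurableEmbedding
    (fun x => ENNReal.ofReal (|x| ^ (-(3/4) : ℝ))) (Ioc 0 1)
  have h3 : (fun v : ℝ => v0 - v) ⁻¹' (Ioc 0 1) = Ico (v0 - 1) v0 := by
    ext v
    simp only [mem_preimage, mem_Ioc, mem_Ico]
    constructor <;> rintro ⟨a, b⟩ <;> constructor <;> linarith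
  rw [h3] at h2
  have h4 : ∫⁻ v in Ico (v0 - 1) v0, ENNReal.ofReal (|v - v0| ^ (-(3/4) : ℝ)) =
      ∫⁻ v in Ico (v0 - 1) v0, ENNReal.ofReal (|v0 - v| ^ (-(3/4) : ℝ)) := by
    simp_rw [abs_sub_comm _ v0]
  rw [h4, h2]
  apply le_of_eq
  apply setLIntegral_congr_fun measurableSet_Ioc
  intro x hx
  simp only
  rw [abs_of_pos hx.1]

theorem lint_all (v0 : ℝ) (h0 : 0 ≤ v0) (h1 : v0 ≤ 1) :
    ∫⁻ v in Ico (0:ℝ) 1, ENNReal.ofReal (|v - v0| ^ (-(3/4) : ℝ)) ≤ ENNReal.ofReal 8 := by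
  have hsub : Ico (0:ℝ) 1 ⊆ (Ico 0 v0 ∪ {v0}) ∪ Ioc v0 1 := by
    intro v hv
    rcases lt_trichotomy v v0 with h | h | h
    · exact Or.inl (Or.inl ⟨hv.1, h⟩)
    · exact Or.inl (Or.inr h)
    · exact Or.inr ⟨h, hv.2.le⟩
  calc ∫⁻ v in Ico (0:ℝ) 1, ENNReal.ofReal (|v - v0| ^ (-(3/4) : ℝ))
      ≤ ∫⁻ v in (Ico 0 v0 ∪ {v0}) ∪ Ioc v0 1, ENNReal.ofReal (|v - v0| ^ (-(3/4) : ℝ)) :=
        lintegral_mono_set hsub
    _ ≤ (∫⁻ v in (Ico 0 v0 ∪ {v0}), ENNReal.ofReal (|v - v0| ^ (-(3/4) : ℝ))) +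
        (∫⁻ v in Ioc v0 1, ENNReal.ofReal (|v - v0| ^ (-(3/4) : ℝ))) := lintegral_union_le _ _ _
    _ ≤ ((∫⁻ v in (Ico 0 v0), ENNReal.ofReal (|v - v0| ^ (-(3/4) : ℝ))) +
        (∫⁻ v in {v0}, ENNReal.ofReal (|v - v0| ^ (-(3/4) : ℝ)))) +
        (∫⁻ v in Ioc v0 1, ENNReal.ofReal (|v - v0| ^ (-(3/4) : ℝ))) :=
        add_le_add (lintegral_union_le _ _ _) le_rfl
    _ ≤ (ENNReal.ofReal 4 + 0) + ENNReal.ofReal 4 :=
        add_le_add (add_le_add (lint_left v0 h1) (by simp)) (lint_right v0 h0)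
    _ = ENNReal.ofReal 8 := by
        rw [add_zero, ← ENNReal.ofReal_add (by norm_num) (by norm_num)]; norm_num

/-- the piece of the unit square lying in the strip -/
def Q (α β c w : ℝ) : Set (ℝ × ℝ) :=
  {p | (0 ≤ p.1 ∧ p.1 ≤ 1) ∧ (0 ≤ p.2 ∧ p.2 < 1) ∧
    c ≤ α * p.1 + β * (p.1 ^ 2 + g p.2) ∧ α * p.1 + β * (p.1 ^ 2 + g p.2) ≤ c + w}

theorem g_meas : Measurable (fun v : ℝ => (Ico (0:ℝ) 1).indicator g v) := by
  have h : Measurable (fun v : Ico (0:ℝ) 1 => g v) := by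
    have : Monotone (fun v : Ico (0:ℝ) 1 => g v) := fun a b hab => g_mono a.2 b.2 hab
    exact this.measurable
  refine measurable_of_restrict_of_restrict_compl (measurableSet_Ico (a := (0:ℝ)) (b := 1)) ?_ ?_
  · have : (Ico (0:ℝ) 1).domRestrict (fun v : ℝ => (Ico (0:ℝ) 1).indicator g v) =
        fun v : Ico (0:ℝ) 1 => g v := by
      funext v
      exact indicator_of_mem v.2 g
    rw [this]
    exact h
  · have : (Ico (0:ℝ) 1)ᶜ.domRestrict (fun v : ℝ => (Ico (0:ℝ) 1).indicator g v) = fun _ => 0 := by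
      funext v
      exact indicator_of_notMem v.2 g
    rw [this]
    exact measurable_const

theorem Q_meas (α β c w : ℝ) : MeasurableSet (Q α β c w) := by
  have h : Q α β c w = {p | (0 ≤ p.1 ∧ p.1 ≤ 1) ∧ (0 ≤ p.2 ∧ p.2 < 1) ∧
    c ≤ α * p.1 + β * (p.1 ^ 2 + (Ico (0:ℝ) 1).indicator g p.2) ∧
    α * p.1 + β * (p.1 ^ 2 + (Ico (0:ℝ) 1).indicator g p.2) ≤ c + w} := by
    ext p
    simp only [Q, mem_ofPred_eq]
    constructor
    · rintro ⟨h1, h2, h3⟩
      rw [indicator_of_mem (show p.2 ∈ Ico (0:ℝ) 1 from h2)]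
      exact ⟨h1, h2, h3⟩
    · rintro ⟨h1, h2, h3⟩
      rw [indicator_of_mem (show p.2 ∈ Ico (0:ℝ) 1 from h2)] at h3
      exact ⟨h1, h2, h3⟩
  rw [h]
  have hm : Measurable (fun p : ℝ × ℝ =>
      α * p.1 + β * (p.1 ^ 2 + (Ico (0:ℝ) 1).indicator g p.2)) := by
    have h2 : Measurable (fun p : ℝ × ℝ => (Ico (0:ℝ) 1).indicator g p.2) :=
      Measurable.comp g_meas measurable_snd
    exact (measurable_fst.const_mul α).add (((measurable_fst.pow_const 2).add h2).const_mul β)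
  refine MeasurableSet.inter (MeasurableSet.inter ?_ ?_) (MeasurableSet.inter
    (MeasurableSet.inter ?_ ?_) (MeasurableSet.inter ?_ ?_))
  · exact measurableSet_le measurable_const measurable_fst
  · exact measurableSet_le measurable_fst measurable_const
  · exact measurableSet_le measurable_const measurable_snd
  · exact measurableSet_lt measurable_snd measurable_const
  · exact measurableSet_le measurable_const hm
  · exact measurableSet_le hm measurable_const

theorem Q_vol_flat (α β c w : ℝ) (hw : 0 < w) (h1 : α ^ 2 + β ^ 2 = 1) (hβ : |β| ≤ 1 / 4) :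
    volume (Q α β c w) ≤ ENNReal.ofReal (3 * w) := by
  have hb : |β| ^ 2 ≤ (1/4) ^ 2 := pow_le_pow_left₀ (abs_nonneg _) hβ 2
  rw [sq_abs] at hb
  have ha : (9/10:ℝ) ≤ |α| := by
    by_contra h
    push Not at h
    have : |α| ^ 2 < (9/10)^2 := pow_lt_pow_left₀ h (abs_nonneg _) (by norm_num)
    rw [sq_abs] at this
    linarith
  rw [Measure.volume_eq_prod, Measure.prod_apply_symm (Q_meas α β c w)]
  have hsl : ∀ v : ℝ, volume ((fun t : ℝ => (t, v)) ⁻¹' Q α β c w) ≤
      (Ico (0:ℝ) 1).indicator (fun _ => ENNReal.ofReal (3 * w)) v := by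
    intro v
    by_cases hv : v ∈ Ico (0:ℝ) 1
    · rw [indicator_of_mem hv]
      refine (Real.volume_le_diam _).trans ?_
      apply Metric.ediam_le
      rintro x ⟨hx1, -, hx2, hx3⟩ y ⟨hy1, -, hy2, hy3⟩
      rw [edist_dist]
      apply ENNReal.ofReal_le_ofReal
      rw [Real.dist_eq]
      simp only at hx1 hx2 hx3 hy1 hy2 hy3
      have e1 : |(x - y) * (α + β * (x + y))| ≤ w := by
        rw [abs_le]; constructor <;> nlinarith
      have e2 : (2/5:ℝ) ≤ |α + β * (x + y)| := by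
        have e3 : |β * (x + y)| ≤ 1/2 := by
          rw [abs_mul, abs_of_nonneg (show 0 ≤ x + y by linarith [hx1.1, hy1.1])]
          nlinarith [hx1.2, hy1.2, abs_nonneg β, hx1.1, hy1.1]
        have e4 := abs_sub_abs_le_abs_sub α (-(β * (x + y)))
        rw [abs_neg, sub_neg_eq_add] at e4
        linarith
      rw [abs_mul] at e1
      nlinarith [abs_nonneg (x - y)]
    · rw [indicator_of_notMem hv]
      have : (fun t : ℝ => (t, v)) ⁻¹' Q α β c w = ∅ := by
        ext t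
        simp only [mem_preimage, mem_empty_iff_false, iff_false]
        intro ht
        exact hv ht.2.1
      rw [this]; simp
  calc ∫⁻ v, volume ((fun t : ℝ => (t, v)) ⁻¹' Q α β c w)
      ≤ ∫⁻ v, (Ico (0:ℝ) 1).indicator (fun _ => ENNReal.ofReal (3 * w)) v := lintegral_mono hsl
    _ = ENNReal.ofReal (3 * w) := by
        rw [lintegral_indicator_const measurableSet_Ico]; simp

theorem Q_vol_steep (α β c w : ℝ) (hw : 0 < w) (hβ : 1 / 4 ≤ β) :
    volume (Q α β c w) ≤ ENNReal.ofReal (448 * w) := by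
  have hβ0 : 0 < β := by linarith
  set t0 := - α / (2 * β) with ht0
  set c' := c / β + t0 ^ 2 with hc'
  set w' := w / β with hw'
  have hw'0 : 0 < w' := by positivity
  have hw'4 : w' ≤ 4 * w := by
    rw [hw', div_le_iff₀ hβ0]; nlinarith
  obtain ⟨v0, hv0, hv1, hvv⟩ := exists_center c'
  rw [Measure.volume_eq_prod, Measure.prod_apply_symm (Q_meas α β c w)]
  have hsl : ∀ v : ℝ, v ≠ v0 → volume ((fun t : ℝ => (t, v)) ⁻¹' Q α β c w) ≤
      (Ico (0:ℝ) 1).indicator (fun v => ENNReal.ofReal (14 * w') *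
        ENNReal.ofReal (|v - v0| ^ (-(3/4) : ℝ))) v := by
    intro v hne
    by_cases hv : v ∈ Ico (0:ℝ) 1
    · rw [indicator_of_mem hv]
      have hb := hvv v hv.1 hv.2
      have hpos : 0 < |v - v0| := abs_pos.2 (sub_ne_zero.2 hne)
      have hz : c' - g v ≠ 0 := by
        intro h
        rw [h] at hb
        have : 0 < |v - v0| ^ 3 := by positivity
        norm_num at hb
        linarith
      have hsub : (fun t : ℝ => (t, v)) ⁻¹' Q α β c w ⊆
          {t : ℝ | c' - g v ≤ (t - t0) ^ 2 ∧ (t - t0) ^ 2 ≤ (c' - g v) + w'} := by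
        rintro t ⟨-, -, h3, h4⟩
        simp only at h3 h4
        have hid : (t - t0) ^ 2 = (α * t + β * (t ^ 2 + g v)) / β + t0 ^ 2 - g v := by
          rw [ht0]; field_simp; ring
        rw [mem_ofPred_eq, hid]
        have e1 : c / β ≤ (α * t + β * (t ^ 2 + g v)) / β := by gcongr
        have e2 : (α * t + β * (t ^ 2 + g v)) / β ≤ c / β + w / β := by
          rw [← add_div]; gcongr
        constructor
        · rw [hc']; linarith
        · rw [hc', hw']; linarith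
      refine (measure_mono hsub).trans ((slice_vol _ _ _ hz hw'0).trans ?_)
      rw [← ENNReal.ofReal_mul (by positivity)]
      apply ENNReal.ofReal_le_ofReal
      -- 2 w' / sqrt |z| ≤ 14 w' |v - v0|^(-3/4)
      have hzp : 0 < |c' - g v| := abs_pos.2 hz
      have hs : 0 < Real.sqrt |c' - g v| := Real.sqrt_pos.2 hzp
      have hr : 0 < |v - v0| ^ ((3/4) : ℝ) := Real.rpow_pos_of_pos hpos _
      rw [Real.rpow_neg hpos.le]
      have key : |v - v0| ^ ((3/4) : ℝ) ≤ 7 * Real.sqrt |c' - g v| := by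
        have h4 : (|v - v0| ^ ((3/4) : ℝ)) ^ 4 ≤ (7 * Real.sqrt |c' - g v|) ^ 4 := by
          have e1 : (|v - v0| ^ ((3/4) : ℝ)) ^ 4 = |v - v0| ^ 3 := by
            rw [← Real.rpow_natCast, ← Real.rpow_mul hpos.le]
            norm_num
          have e2 : (Real.sqrt |c' - g v|) ^ 4 = (c' - g v) ^ 2 := by
            have : (Real.sqrt |c' - g v|) ^ 4 = ((Real.sqrt |c' - g v|) ^ 2) ^ 2 := by ring
            rw [this, Real.sq_sqrt hzp.le, sq_abs]
          rw [e1, mul_pow, e2]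
          nlinarith [sq_nonneg (c' - g v)]
        exact le_of_pow_le_pow_left₀ (by norm_num) (by positivity) h4
      rw [show 2 * (w' / Real.sqrt |c' - g v|) = (2 * w') / Real.sqrt |c' - g v| by ring,
        ← div_eq_mul_inv, div_le_div_iff₀ hs hr]
      nlinarith
    · rw [indicator_of_notMem hv]
      have : (fun t : ℝ => (t, v)) ⁻¹' Q α β c w = ∅ := by
        ext t
        simp only [mem_preimage, mem_empty_iff_false, iff_false]
        intro ht
        exact hv ht.2.1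
      rw [this]; simp
  have hae : ∀ᵐ v : ℝ, v ≠ v0 := by
    rw [ae_iff]; simp
  calc ∫⁻ v, volume ((fun t : ℝ => (t, v)) ⁻¹' Q α β c w)
      ≤ ∫⁻ v, (Ico (0:ℝ) 1).indicator (fun v => ENNReal.ofReal (14 * w') *
        ENNReal.ofReal (|v - v0| ^ (-(3/4) : ℝ))) v :=
        lintegral_mono_ae (hae.mono hsl)
    _ = ENNReal.ofReal (14 * w') * ∫⁻ v in Ico (0:ℝ) 1, ENNReal.ofReal (|v - v0| ^ (-(3/4) : ℝ)) := by
        rw [lintegral_indicator measurableSet_Ico, lintegral_const_mul' _ _ ENNReal.ofReal_ne_top]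
    _ ≤ ENNReal.ofReal (14 * w') * ENNReal.ofReal 8 := by
        gcongr
        exact lint_all v0 hv0 hv1
    _ ≤ ENNReal.ofReal (448 * w) := by
        rw [← ENNReal.ofReal_mul (by positivity)]
        apply ENNReal.ofReal_le_ofReal
        linarith

theorem Q_vol (α β c w : ℝ) (hw : 0 < w) (h1 : α ^ 2 + β ^ 2 = 1) :
    volume (Q α β c w) ≤ ENNReal.ofReal (448 * w) := by
  rcases le_total |β| (1/4) with h | h
  · refine (Q_vol_flat α β c w hw h1 h).trans (ENNReal.ofReal_le_ofReal (by linarith))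
  · rcases le_total 0 β with hb | hb
    · rw [abs_of_nonneg hb] at h
      exact Q_vol_steep α β c w hw h
    · rw [abs_of_nonpos hb] at h
      have : Q α β c w = Q (-α) (-β) (-(c + w)) w := by
        ext p
        simp only [Q, mem_ofPred_eq]
        constructor
        · rintro ⟨a1, a2, a3, a4⟩
          refine ⟨a1, a2, by linarith, by linarith⟩
        · rintro ⟨a1, a2, a3, a4⟩
          refine ⟨a1, a2, by linarith, by linarith⟩
      rw [this]
      exact Q_vol_steep _ _ _ _ hw h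

end Pool.Agent.TH330.Rogers
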