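import Mathlib
import Pool.Agent.TH738.PX4933

set_option autoImplicit false

open Filter Topology

namespace Pool.Agent.TH330.PX

open Polynomial

/-- all complex roots have the norm `lam` -/
def OneMod (s : ℝ[X]) (lam : ℝ) : Prop := ∀ μ : ℂ, aeval μ s = 0 → ‖μ‖ = lam

theorem oneMod_irred {π : ℝ[X]} (hπ : Irreducible π) : ∃ lam : ℝ, 0 ≤ lam ∧ OneMod π lam := by
  by_cases h : ∃ μ : ℂ, aeval μ π = 0
  · obtain ⟨μ, hμ⟩ := h
    refine ⟨‖μ‖, norm_nonneg _, fun ν hν => ?_⟩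
    have hint : IsIntegral ℝ μ := Algebra.IsIntegral.isIntegral μ
    have h1 : π ∣ minpoly ℝ μ :=
      (minpoly.irreducible hint).dvd_symm hπ (minpoly.dvd ℝ μ hμ)
    have h2 : minpoly ℝ μ ∣ (X ^ 2 - C (2 * μ.re) * X + C (‖μ‖ ^ 2) : ℝ[X]) := by
      apply minpoly.dvd
      simp only [map_add, map_sub, map_mul, map_pow, aeval_X, aeval_C]
      apply Complex.ext
      · have e : ‖μ‖ * ‖μ‖ = μ.re * μ.re + μ.im * μ.im := by
          rw [Complex.norm_mul_self_eq_normSq, Complex.normSq_apply]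
        simp [pow_two]
        linear_combination e
      · simp [pow_two]
        ring
    obtain ⟨q, hq⟩ := h1.trans h2
    have h3 : aeval ν (X ^ 2 - C (2 * μ.re) * X + C (‖μ‖ ^ 2) : ℝ[X]) = 0 := by
      rw [hq, map_mul, hν, zero_mul]
    simp only [map_add, map_sub, map_mul, map_pow, aeval_X, aeval_C] at h3
    have h4 : (ν - μ) * (ν - (starRingEnd ℂ) μ) = 0 := by
      rw [← h3]
      have e1 : μ + (starRingEnd ℂ) μ = ((2 * μ.re : ℝ) : ℂ) := Complex.add_conj μ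
      have e2 : μ * (starRingEnd ℂ) μ = ((‖μ‖ ^ 2 : ℝ) : ℂ) := by
        rw [Complex.mul_conj, Complex.normSq_eq_norm_sq]
      have e3 : (algebraMap ℝ ℂ) (2 * μ.re) = ((2 * μ.re : ℝ) : ℂ) := rfl
      have e4 : (algebraMap ℝ ℂ) (‖μ‖ ^ 2) = ((‖μ‖ ^ 2 : ℝ) : ℂ) := rfl
      have e5 : (algebraMap ℝ ℂ) 2 * (algebraMap ℝ ℂ) μ.re = ((2 * μ.re : ℝ) : ℂ) := by
        push_cast; rfl
      have e6 : (algebraMap ℝ ℂ) ‖μ‖ ^ 2 = ((‖μ‖ ^ 2 : ℝ) : ℂ) := by
        push_cast; rfl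
      rw [e5, e6, ← e1, ← e2]
      ring
    rcases mul_eq_zero.1 h4 with h | h
    · rw [sub_eq_zero.1 h]
    · rw [sub_eq_zero.1 h, Complex.norm_conj]
  · push Not at h
    exact ⟨0, le_rfl, fun μ hμ => absurd hμ (h μ)⟩

/-- block decomposition of `ℝ[X] / p` -/
def Blk (p : ℝ[X]) : Prop := ∃ (ι : Type) (_ : Fintype ι) (e s : ι → ℝ[X])
    (lam : ι → ℝ), (p ∣ ∑ i, e i - 1) ∧ (∀ i j, i ≠ j → p ∣ e i * e j) ∧
    (∀ i, s i ≠ 0 ∧ OneMod (s i) (lam i) ∧ 0 ≤ lam i ∧ p ∣ s i * e i)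

theorem blk_pow {π : ℝ[X]} (hπ : Irreducible π) (k : ℕ) : Blk (π ^ k) := by
  obtain ⟨lam, h0, h1⟩ := oneMod_irred hπ
  refine ⟨Unit, inferInstance, fun _ => 1, fun _ => π ^ k, fun _ => lam, by simp, ?_, ?_⟩
  · intro i j hij
    exact absurd (Subsingleton.elim i j) hij
  · intro _
    refine ⟨pow_ne_zero _ hπ.ne_zero, ?_, h0, by simp⟩
    intro μ hμ
    rw [map_pow] at hμ
    rcases Nat.eq_zero_or_pos k with h | h
    · subst h
      simp at hμ
    · exact h1 μ ((pow_eq_zero_iff h.ne').1 hμ)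

theorem blk_unit {p : ℝ[X]} (hp : IsUnit p) : Blk p :=
  ⟨Unit, inferInstance, fun _ => 1, fun _ => 1, fun _ => 0, hp.dvd, fun _ _ _ => hp.dvd,
    fun _ => ⟨one_ne_zero, fun μ hμ => by simp at hμ, le_rfl, hp.dvd⟩⟩

theorem blk_mul {a b : ℝ[X]} (hab : IsCoprime a b) (ha : Blk a) (hb : Blk b) : Blk (a * b) := by
  obtain ⟨u, v, huv⟩ := hab
  obtain ⟨ι, _, e, s, lam, a1, a2, a3⟩ := ha
  obtain ⟨κ, _, f, t, mu, b1, b2, b3⟩ := hb
  refine ⟨ι ⊕ κ, inferInstance, Sum.elim (fun i => e i * (v * b)) (fun j => f j * (u * a)),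
    Sum.elim s t, Sum.elim lam mu, ?_, ?_, ?_⟩
  · rw [Fintype.sum_sum_type]
    simp only [Sum.elim_inl, Sum.elim_inr]
    rw [← Finset.sum_mul, ← Finset.sum_mul]
    obtain ⟨x, hx⟩ := a1
    obtain ⟨y, hy⟩ := b1
    refine ⟨x * v + y * u, ?_⟩
    linear_combination (v * b) * hx + (u * a) * hy + huv
  · rintro (i | i) (j | j) hij
    · obtain ⟨x, hx⟩ := a2 i j (fun h => hij (by rw [h]))
      refine ⟨x * v ^ 2 * b, ?_⟩
      simp only [Sum.elim_inl]
      linear_combination (v * b) ^ 2 * hx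
    · exact ⟨e i * v * f j * u, by simp only [Sum.elim_inl, Sum.elim_inr]; ring⟩
    · exact ⟨f i * u * e j * v, by simp only [Sum.elim_inl, Sum.elim_inr]; ring⟩
    · obtain ⟨x, hx⟩ := b2 i j (fun h => hij (by rw [h]))
      refine ⟨x * u ^ 2 * a, ?_⟩
      simp only [Sum.elim_inr]
      linear_combination (u * a) ^ 2 * hx
  · rintro (i | i)
    · obtain ⟨h1, h2, h3, x, hx⟩ := a3 i
      refine ⟨h1, h2, h3, x * v, ?_⟩
      simp only [Sum.elim_inl]
      linear_combination (v * b) * hx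
    · obtain ⟨h1, h2, h3, x, hx⟩ := b3 i
      refine ⟨h1, h2, h3, x * u, ?_⟩
      simp only [Sum.elim_inr]
      linear_combination (u * a) * hx

theorem blk {p : ℝ[X]} (hp : p ≠ 0) : Blk p := by
  revert hp
  induction p using UniqueFactorizationMonoid.induction_on_coprime with
  | h0 => intro h; exact absurd rfl h
  | h1 hx => intro _; exact blk_unit hx
  | hpr i hp => intro _; exact blk_pow hp.irreducible i
  | hcp hxy hx hy =>
    intro h
    exact blk_mul hxy.isCoprime (hx (left_ne_zero_of_mul h)) (hy (right_ne_zero_of_mul h))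

section ops

variable {Q : Type} [NormedAddCommGroup Q] [NormedSpace ℝ Q]

/-- the growth statement (PX-J1) for the space `Q` -/
def Gr (Q : Type) [NormedAddCommGroup Q] [NormedSpace ℝ Q] : Prop :=
  ∀ (A : Q →L[ℝ] Q) (p : Polynomial ℝ), p ≠ 0 → Polynomial.aeval A p = 0 → ∀ r : ℝ, 0 < r →
    (∀ μ : ℂ, Polynomial.aeval μ p = 0 → ‖μ‖ < r) → ∃ C : ℝ, ∀ n : ℕ, ‖A ^ n‖ ≤ C * r ^ n

theorem mulP_pow {T P : Q →L[ℝ] Q} (hc : T * P = P * T) (hP : P * P = P) (n : ℕ) :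
    (T * P) ^ (n + 1) = T ^ (n + 1) * P := by
  induction n with
  | zero => simp
  | succ n ih =>
    have hc' : P * T = T * P := hc.symm
    calc (T * P) ^ (n + 1 + 1) = T ^ (n + 1) * (P * T) * P := by
          rw [pow_succ, ih]; noncomm_ring
      _ = T ^ (n + 1) * T * (P * P) := by rw [hc']; noncomm_ring
      _ = T ^ (n + 1 + 1) * P := by rw [hP, ← pow_succ]

theorem aeval_mulP {T P : Q →L[ℝ] Q} (hc : T * P = P * T) (hP : P * P = P) (q : ℝ[X]) :
    aeval (T * P) (X * q) = aeval T (X * q) * P := by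
  induction q using Polynomial.induction_on' with
  | add p q hp hq => rw [mul_add, map_add, map_add, hp, hq, add_mul]
  | monomial n a =>
    rw [X_mul_monomial, aeval_monomial, aeval_monomial, mulP_pow hc hP, mul_assoc]

theorem upper (hG : Gr Q) {T P : Q →L[ℝ] Q} (hc : T * P = P * T) (hP : P * P = P) {s : ℝ[X]}
    (hs : s ≠ 0) {lam β : ℝ} (h1 : OneMod s lam) (h0 : 0 ≤ lam) (hβ : lam < β)
    (hsP : aeval T s * P = 0) : ∃ C : ℝ, ∀ n : ℕ, ‖T ^ n * P‖ ≤ C * β ^ n := by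
  have hβ0 : 0 < β := h0.trans_lt hβ
  obtain ⟨C, hC⟩ := hG (T * P) (X * s) (mul_ne_zero X_ne_zero hs) (by
    rw [aeval_mulP hc hP, map_mul, mul_assoc, hsP, mul_zero]) β hβ0 (by
    intro μ hμ
    rw [map_mul, aeval_X] at hμ
    rcases mul_eq_zero.1 hμ with h | h
    · rw [h, norm_zero]; exact hβ0
    · rw [h1 μ h]; exact hβ)
  refine ⟨max C ‖P‖, fun n => ?_⟩
  rcases n with _ | n
  · simp
  · rw [← mulP_pow hc hP]
    refine (hC (n + 1)).trans ?_
    gcongr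
    exact le_max_left _ _

theorem aeval_reflect {T T' : Q →L[ℝ] Q} (h' : T' * T = 1) (N : ℕ) (f : ℝ[X])
    (hf : f.natDegree ≤ N) : aeval T' (reflect N f) = T' ^ N * aeval T f := by
  have hpow : ∀ n : ℕ, T' ^ n * T ^ n = 1 := by
    intro n
    induction n with
    | zero => simp
    | succ n ih =>
      calc T' ^ (n + 1) * T ^ (n + 1) = T' ^ n * (T' * T) * T ^ n := by
            rw [pow_succ, pow_succ' T]; noncomm_ring
        _ = 1 := by rw [h', mul_one, ih]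
  refine induction_with_natDegree_le (fun f => aeval T' (reflect N f) = T' ^ N * aeval T f) N
    ?_ ?_ ?_ f hf
  · simp
  · intro n r _ hn
    rw [reflect_C_mul_X_pow, revAt_le hn, map_mul, map_mul, aeval_C, aeval_C, map_pow, map_pow,
      aeval_X, aeval_X, Algebra.left_comm]
    congr 1
    have e : T' ^ N = T' ^ (N - n) * T' ^ n := by rw [← pow_add]; congr 1; omega
    rw [e, mul_assoc, hpow, mul_one]
  · intro f g _ _ hf hg
    rw [reflect_add, map_add, map_add, hf, hg, mul_add]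

theorem oneMod_reverse {s : ℝ[X]} (hs : s ≠ 0) {lam : ℝ} (h : OneMod s lam) :
    OneMod s.reverse lam⁻¹ := by
  intro ν hν
  have hν0 : ν ≠ 0 := by
    rintro rfl
    rw [← coeff_zero_eq_aeval_zero', coeff_zero_reverse] at hν
    have : s.leadingCoeff = 0 := by simpa using hν
    exact hs (leadingCoeff_eq_zero.1 this)
  let _ : Invertible (ν⁻¹) := invertibleOfNonzero (inv_ne_zero hν0)
  have h2 := (eval₂_reverse_eq_zero_iff (algebraMap ℝ ℂ) (ν⁻¹) s).1 (by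
    rw [invOf_eq_inv, inv_inv]
    exact hν)
  have h3 := h _ h2
  rw [norm_inv] at h3
  rw [← h3, inv_inv]

theorem vanish (hG : Gr Q) {T T' P : Q →L[ℝ] Q} (h' : T' * T = 1) (hT' : ‖T'‖ < 1)
    (hc : T * P = P * T) (hP : P * P = P) {s : ℝ[X]} (hs : s ≠ 0) {lam : ℝ} (h1 : OneMod s lam)
    (h0 : 0 ≤ lam) (hlam : lam ≤ 1) (hsP : aeval T s * P = 0) : P = 0 := by
  set t := ‖T'‖ with ht
  have ht0 : 0 ≤ t := norm_nonneg _
  have hβ : 1 < 2 / (1 + t) := by rw [lt_div_iff₀ (by positivity)]; linarith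
  have hβt : t * (2 / (1 + t)) < 1 := by
    rw [mul_div_assoc', div_lt_one (by positivity)]; linarith
  obtain ⟨C, hC⟩ := upper hG hc hP hs h1 h0 (hlam.trans_lt hβ) hsP
  have hpow : ∀ n : ℕ, T' ^ n * T ^ n = 1 := by
    intro n
    induction n with
    | zero => simp
    | succ n ih =>
      calc T' ^ (n + 1) * T ^ (n + 1) = T' ^ n * (T' * T) * T ^ n := by
            rw [pow_succ, pow_succ' T]; noncomm_ring
        _ = 1 := by rw [h', mul_one, ih]
  have hb : ∀ n : ℕ, ‖P‖ ≤ C * (t * (2 / (1 + t))) ^ (n + 1) := by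
    intro n
    have e : P = T' ^ (n + 1) * (T ^ (n + 1) * P) := by
      rw [← mul_assoc, hpow, one_mul]
    calc ‖P‖ = ‖T' ^ (n + 1) * (T ^ (n + 1) * P)‖ := by rw [← e]
      _ ≤ ‖T' ^ (n + 1)‖ * ‖T ^ (n + 1) * P‖ := norm_mul_le _ _
      _ ≤ t ^ (n + 1) * (C * (2 / (1 + t)) ^ (n + 1)) := by
          apply mul_le_mul (norm_pow_le' T' (Nat.succ_pos n)) (hC _) (norm_nonneg _) (by positivity)
      _ = C * (t * (2 / (1 + t))) ^ (n + 1) := by rw [mul_pow]; ring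
  have hlim : Tendsto (fun n : ℕ => C * (t * (2 / (1 + t))) ^ (n + 1)) atTop (𝓝 (C * 0)) := by
    apply Tendsto.const_mul
    exact (tendsto_pow_atTop_nhds_zero_of_lt_one (by positivity) hβt).comp (tendsto_add_atTop_nat 1)
  rw [mul_zero] at hlim
  have := ge_of_tendsto' hlim hb
  exact norm_le_zero_iff.1 this

theorem block (hG : Gr Q) {T T' P : Q →L[ℝ] Q} (h : T * T' = 1) (h' : T' * T = 1) (hT' : ‖T'‖ < 1)
    (hc : T * P = P * T) (hP : P * P = P) {s : ℝ[X]} (hs : s ≠ 0) {lam : ℝ} (h1 : OneMod s lam)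
    (h0 : 0 ≤ lam) (hsP : aeval T s * P = 0) :
    ∃ α β C : ℝ, (0 < α ∧ α < 1 ∧ 0 < β ∧ α ^ 2 * β < 1) ∧
      (∀ n : ℕ, ‖P * T' ^ n‖ ≤ C * α ^ n) ∧ (∀ n : ℕ, ‖T ^ n * P‖ ≤ C * β ^ n) := by
  have hc' : T' * P = P * T' := by
    calc T' * P = T' * (P * T) * T' := by rw [mul_assoc, mul_assoc, h, mul_one]
      _ = P * T' := by rw [← hc, ← mul_assoc, h', one_mul]
  rcases le_or_gt lam 1 with hlam | hlam
  · have hP0 := vanish hG h' hT' hc hP hs h1 h0 hlam hsP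
    refine ⟨1 / 2, 1, 0, by norm_num, ?_, ?_⟩
    · intro n; rw [hP0, zero_mul, norm_zero, zero_mul]
    · intro n; rw [hP0, mul_zero, norm_zero, zero_mul]
  · set x := min 1 ((lam - 1) / 8) with hx
    have hx0 : 0 < x := lt_min one_pos (by linarith)
    have hx1 : x ≤ 1 := min_le_left _ _
    have hx2 : x ≤ (lam - 1) / 8 := min_le_right _ _
    have hx3 : (1 + x) ^ 3 < lam := by nlinarith [mul_nonneg hx0.le hx0.le, mul_nonneg hx0.le (mul_nonneg hx0.le hx0.le)]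
    have hlam0 : 0 < lam := by linarith
    obtain ⟨C1, hC1⟩ := upper hG hc hP hs h1 h0 (β := (1 + x) * lam) (by nlinarith) hsP
    have hrev : aeval T' s.reverse * P = 0 := by
      rw [reverse, aeval_reflect h' _ _ le_rfl, mul_assoc, hsP, mul_zero]
    obtain ⟨C2, hC2⟩ := upper hG hc' hP (s := s.reverse) (by rwa [Ne, reverse_eq_zero])
      (oneMod_reverse hs h1) (by positivity) (β := (1 + x) * lam⁻¹) (by
        have : 0 < lam⁻¹ := by positivity
        nlinarith) hrev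
    have hpc : ∀ n : ℕ, P * T' ^ n = T' ^ n * P := fun n =>
      ((show Commute T' P from hc').pow_left n).eq.symm
    refine ⟨(1 + x) * lam⁻¹, (1 + x) * lam, max C1 C2, ⟨by positivity, ?_, by positivity, ?_⟩,
      ?_, ?_⟩
    · rw [← div_eq_mul_inv, div_lt_one hlam0]
      nlinarith [mul_nonneg hx0.le hx0.le, mul_nonneg hx0.le (mul_nonneg hx0.le hx0.le)]
    · have : ((1 + x) * lam⁻¹) ^ 2 * ((1 + x) * lam) = (1 + x) ^ 3 / lam := by
        field_simp
      rw [this, div_lt_one hlam0]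
      exact hx3
    · intro n
      rw [hpc]
      refine (hC2 n).trans ?_
      gcongr
      exact le_max_right _ _
    · intro n
      refine (hC1 n).trans ?_
      gcongr
      exact le_max_left _ _

theorem exp_blocks_core [FiniteDimensional ℝ Q] (hG : Gr Q)
    (T T' : Q →L[ℝ] Q) (hTT' : ∀ q, T (T' q) = q) (hT'T : ∀ q, T' (T q) = q) (hT' : ‖T'‖ < 1) :
    ∃ (m : ℕ) (P : Fin m → Q →L[ℝ] Q) (α β : Fin m → ℝ) (C : ℝ),
      (∀ q, ∑ i, P i q = q) ∧ (∀ i j, i ≠ j → ∀ q, P i (P j q) = 0) ∧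
      (∀ i, 0 < α i ∧ α i < 1 ∧ 0 < β i ∧ α i ^ 2 * β i < 1) ∧
      (∀ i (n : ℕ) q, ‖P i ((T' ^ n) q)‖ ≤ C * α i ^ n * ‖q‖) ∧
      (∀ i (n : ℕ) q, ‖(T ^ n) (P i q)‖ ≤ C * β i ^ n * ‖q‖) := by
  have h : T * T' = 1 := ContinuousLinearMap.ext hTT'
  have h' : T' * T = 1 := ContinuousLinearMap.ext hT'T
  have hint : IsIntegral ℝ T := Algebra.IsIntegral.isIntegral T
  set p := minpoly ℝ T with hp
  have hp0 : p ≠ 0 := minpoly.ne_zero hint
  have hpT : aeval T p = 0 := minpoly.aeval ℝ T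
  obtain ⟨ι, _, e, s, lam, b1, b2, b3⟩ := blk hp0
  have hdvd : ∀ q : ℝ[X], p ∣ q → aeval T q = 0 := by
    rintro q ⟨r, rfl⟩
    rw [map_mul, hpT, zero_mul]
  have hsum : ∑ i, aeval T (e i) = (1 : Q →L[ℝ] Q) := by
    have := hdvd _ b1
    rw [map_sub, map_sum, map_one, sub_eq_zero] at this
    exact this
  have hprod : ∀ i j, i ≠ j → aeval T (e i) * aeval T (e j) = 0 := by
    intro i j hij
    rw [← map_mul]
    exact hdvd _ (b2 i j hij)
  have hidem : ∀ i, aeval T (e i) * aeval T (e i) = aeval T (e i) := by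
    intro i
    conv_rhs => rw [← mul_one (aeval T (e i)), ← hsum, Finset.mul_sum]
    rw [Finset.sum_eq_single i]
    · intro j _ hji
      exact hprod i j (Ne.symm hji)
    · intro hi
      exact absurd (Finset.mem_univ i) hi
  have hcomm : ∀ i, T * aeval T (e i) = aeval T (e i) * T := by
    intro i
    have h1 : aeval T (X * e i) = aeval T (e i * X) := by rw [mul_comm]
    rw [map_mul, map_mul, aeval_X] at h1
    exact h1
  have hblock : ∀ i, ∃ α β C : ℝ, (0 < α ∧ α < 1 ∧ 0 < β ∧ α ^ 2 * β < 1) ∧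
      (∀ n : ℕ, ‖aeval T (e i) * T' ^ n‖ ≤ C * α ^ n) ∧
      (∀ n : ℕ, ‖T ^ n * aeval T (e i)‖ ≤ C * β ^ n) := by
    intro i
    obtain ⟨g1, g2, g3, g4⟩ := b3 i
    refine block hG h h' hT' (hcomm i) (hidem i) g1 g2 g3 ?_
    rw [← map_mul]
    exact hdvd _ g4
  choose α β C c1 c2 c3 using hblock
  have eq := Fintype.equivFin ι
  have hCle : ∀ i, C i ≤ ∑ j, |C j| := fun i =>
    (le_abs_self _).trans (Finset.single_le_sum (f := fun j => |C j|)
      (fun j _ => abs_nonneg _) (Finset.mem_univ i))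
  refine ⟨Fintype.card ι, fun i => aeval T (e (eq.symm i)), fun i => α (eq.symm i),
    fun i => β (eq.symm i), ∑ j, |C j|, ?_, ?_, fun i => c1 _, ?_, ?_⟩
  · intro q
    have h1 : ∑ i, aeval T (e (eq.symm i)) = (1 : Q →L[ℝ] Q) := by
      rw [← hsum]
      exact Equiv.sum_comp eq.symm (fun i => aeval T (e i))
    rw [← _root_.sum_apply, h1]
    rfl
  · intro i j hij q
    have := hprod (eq.symm i) (eq.symm j) (fun hh => hij (eq.symm.injective hh))
    exact congrArg (fun f : Q →L[ℝ] Q => f q) this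
  · intro i n q
    have hα : 0 < α (eq.symm i) := (c1 (eq.symm i)).1
    calc ‖aeval T (e (eq.symm i)) ((T' ^ n) q)‖
        = ‖(aeval T (e (eq.symm i)) * T' ^ n) q‖ := rfl
      _ ≤ ‖aeval T (e (eq.symm i)) * T' ^ n‖ * ‖q‖ := ContinuousLinearMap.le_opNorm _ _
      _ ≤ _ := by
        gcongr
        refine (c2 _ n).trans ?_
        gcongr
        exact hCle _
  · intro i n q
    have hβ : 0 < β (eq.symm i) := (c1 (eq.symm i)).2.2.1
    calc ‖(T ^ n) (aeval T (e (eq.symm i)) q)‖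
        = ‖(T ^ n * aeval T (e (eq.symm i))) q‖ := rfl
      _ ≤ ‖T ^ n * aeval T (e (eq.symm i))‖ * ‖q‖ := ContinuousLinearMap.le_opNorm _ _
      _ ≤ _ := by
        gcongr
        refine (c3 _ n).trans ?_
        gcongr
        exact hCle _

end ops

/-- PX-J2 -/
theorem exp_blocks {Q : Type} [NormedAddCommGroup Q] [NormedSpace ℝ Q] [FiniteDimensional ℝ Q]
    (T T' : Q →L[ℝ] Q) (hTT' : ∀ q, T (T' q) = q) (hT'T : ∀ q, T' (T q) = q) (hT' : ‖T'‖ < 1) :
    ∃ (m : ℕ) (P : Fin m → Q →L[ℝ] Q) (α β : Fin m → ℝ) (C : ℝ),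
      (∀ q, ∑ i, P i q = q) ∧ (∀ i j, i ≠ j → ∀ q, P i (P j q) = 0) ∧
      (∀ i, 0 < α i ∧ α i < 1 ∧ 0 < β i ∧ α i ^ 2 * β i < 1) ∧
      (∀ i (n : ℕ) q, ‖P i ((T' ^ n) q)‖ ≤ C * α i ^ n * ‖q‖) ∧
      (∀ i (n : ℕ) q, ‖(T ^ n) (P i q)‖ ≤ C * β i ^ n * ‖q‖) :=
  exp_blocks_core (fun A p hp hA r hr hroots =>
    Pool.Agent.TH738.PX.growth A p hp hA r hr hroots) T T' hTT' hT'T hT'

end Pool.Agent.TH330.PX
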